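import Mathlib
import Pool.Agent.MP_be9872_an.Mg.HedgeGeo

open scoped ContDiff

namespace Pool.Agent.Results.MP_be9872_an.CrossingCaustics

open Pool.Agent.MP_be9872_an

/-- A smooth billiard table of positive curvature with two strictly convex caustics, each with a
unique tangent line at every point, that cross: each has a point outside the body of the other. -/
theorem result :
    ∃ (γ : ℝ → ℂ) (Ω K₁ K₂ : Set ℂ),
      ContDiff ℝ ∞ γ ∧ Function.Periodic γ 1 ∧ Set.InjOn γ (Set.Ico 0 1) ∧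
      (∀ t, 0 < (deriv γ t).re * (deriv (deriv γ) t).im -
        (deriv γ t).im * (deriv (deriv γ) t).re) ∧
      IsOpen Ω ∧ Bornology.IsBounded Ω ∧ Convex ℝ Ω ∧ StrictConvex ℝ (closure Ω) ∧
      frontier Ω = Set.range γ ∧
      (∀ K, K = K₁ ∨ K = K₂ →
        IsCompact K ∧ StrictConvex ℝ K ∧ (interior K).Nonempty ∧ K ⊆ Ω ∧
        (∀ x ∈ frontier K, ∃! n : ℂ, ‖n‖ = 1 ∧ ∀ y ∈ K, inner ℝ n y ≤ inner ℝ n x) ∧
        ∀ (P R : ℂ) (t : ℝ), P ∈ Set.range γ → R ∈ Set.range γ → P ≠ γ t → R ≠ γ t →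
          ‖R - γ t‖⁻¹ • (R - γ t) =
            (ℝ ∙ deriv γ t).reflection (‖γ t - P‖⁻¹ • (γ t - P)) →
          (∃ n : ℂ, n ≠ 0 ∧ ∃ x ∈ K, inner ℝ n P = inner ℝ n x ∧
            inner ℝ n (γ t) = inner ℝ n x ∧ ∀ y ∈ K, inner ℝ n y ≤ inner ℝ n x) →
          ∃ n : ℂ, n ≠ 0 ∧ ∃ x ∈ K, inner ℝ n (γ t) = inner ℝ n x ∧
            inner ℝ n R = inner ℝ n x ∧ ∀ y ∈ K, inner ℝ n y ≤ inner ℝ n x) ∧
      (interior K₁ ∩ interior K₂).Nonempty ∧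
      ¬frontier K₁ ⊆ K₂ ∧ ¬frontier K₂ ⊆ K₁ := by
  obtain ⟨H, h, hH, hp, h0, h1, h2, c1, c2, hne⟩ := hg_data
  obtain ⟨θ, hθ⟩ := hg_cross hne
  exact hg_geo H h _ hH hp h0 h1 h2 c1 c2 ⟨θ, hθ⟩ ⟨-θ, by simpa using hθ⟩

end Pool.Agent.Results.MP_be9872_an.CrossingCaustics
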